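import Pool.Agent.W2helper30.CF.Near
import Pool.Agent.W2helper30.AN.Ex

/-!
# Constellations of primes in the intervals `(n + 4, 2 ^ (n + 4))` with differences near members of sparse families

The question asks for two primes with the difference `2` in every interval `(n + 4, 2 ^ (n + 4))`. Here the difference `2` is
replaced by the members of very sparse families `c₀ + κ ⌊U f(x₀ + 1 / i)⌋` and by all the integers near them, and pairs by
constellations `p, p + h 1, …, p + h k`. For almost all vectors of members, all the vectors `h` near them have the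
following property: for every `n` in a long range every pattern of primes among `p + h 1, …, p + h k` occurs for the
expected number of primes `p` of the interval `(n + 4, N] ⊆ (n + 4, 2 ^ (n + 4))`, where `N` is of the size of the
differences (up to powers of the logarithm).

Method: Vinogradov's mean value method for the sums of `e(θ f(x₀ + 1 / i))` with a uniform saving, and the inequality of
Kusmin and Landau for the small frequencies; a discrete Fejer kernel for the passage to integer parts; so the large spectrum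
of the members is thin. The second moment bound for prime pairs in such a situation is from the starting files
(`Pool.Agent.Y885`); here it is used with one difference at a time, the others being fixed. The transition to the number of
prime values and the singular series are from the starting files `Pool.Agent.Y820.LF`. The exact patterns are obtained from
the formula for all the subsystems.
-/

set_option autoImplicit false

namespace Pool.Agent.Results.MP_b51559_nt.Constellations

open Finset Filter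
open Pool.Agent.W2helper30.AN (Ord Rg vl)
open Pool.Agent.W2helper30.CF (nuT singT exactT IntGood fam_int nuT_le)

/-- `f` is real analytic at `x₀`, and `K ≥ 1` is the order of the zero of `f - f x₀` at `x₀` -/
def OrderAt (f : ℝ → ℝ) (x₀ : ℝ) (K : ℕ) : Prop :=
  AnalyticAt ℝ f x₀ ∧ 1 ≤ K ∧ (∀ j : ℕ, 1 ≤ j → j < K → iteratedDeriv j f x₀ = 0) ∧
    iteratedDeriv K f x₀ ≠ 0

/-- the range of the parameters: `M ^ (K + δ₀) ≤ U ≤ exp ((log M) ^ (3 / 2 - ε₀))` -/
def InRange (K : ℕ) (δ₀ ε₀ : ℝ) (M : ℕ) (U : ℝ) : Prop :=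
  (M : ℝ) ^ ((K : ℝ) + δ₀) ≤ U ∧ U ≤ Real.exp ((Real.log M) ^ (3 / 2 - ε₀))

/-- The number of the residues `n` modulo `q` such that `q` divides `n` or one of the `n + h j` with `j ∈ T`. -/
def nu {k : ℕ} (h : Fin k → ℤ) (T : Finset (Fin k)) (q : ℕ) : ℕ :=
  ((range q).filter (fun n : ℕ => (q : ℤ) ∣ n ∨ ∃ j ∈ T, (q : ℤ) ∣ (n : ℤ) + h j)).card

/-- No prime divides `n ∏ (n + h j)`, `j ∈ T`, for all `n`. For `k = 1` this means that `h` is even. -/
def Admissible {k : ℕ} (h : Fin k → ℤ) (T : Finset (Fin k)) : Prop := ∀ q : ℕ, q.Prime → nu h T q < q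

/-- The partial products of the singular series of the `n` and `n + h j`, `j ∈ T`. -/
noncomputable def sing {k : ℕ} (h : Fin k → ℤ) (T : Finset (Fin k)) (z : ℕ) : ℝ :=
  ∏ q ∈ (Icc 1 z).filter Nat.Prime, (1 - (nu h T q : ℝ) / q) / (1 - 1 / (q : ℝ)) ^ (T.card + 1)

open Classical in
/-- The number of the primes `p` with `a < p ≤ b` such that `p + h j` is a prime exactly for the `j ∈ T`. -/
noncomputable def exact {k : ℕ} (h : Fin k → ℤ) (T : Finset (Fin k)) (a b : ℕ) : ℕ :=
  ((Ioc a b).filter (fun p : ℕ => p.Prime ∧ ∀ j, ((p : ℤ) + h j).toNat.Prime ↔ j ∈ T)).card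

/-- The pattern `T` occurs with the expected frequency, up to a factor within `ε` of `1`, in all the intervals
`(n + 4, N]` with `C (n + 4) ≤ N`: the singular series `S` converges, `S ≥ c`, and the number of the primes `p` in the
interval with this pattern is within `ε S N / (log N) ^ (#T + 1)` of `S N / (log N) ^ (#T + 1)`. -/
def Expected {k : ℕ} (c ε : ℝ) (C N : ℕ) (h : Fin k → ℤ) (T : Finset (Fin k)) : Prop :=
  ∃ S : ℝ, c ≤ S ∧ Tendsto (sing h T) atTop (nhds S) ∧ ∀ n : ℕ, C * (n + 4) ≤ N →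
    |(exact h T (n + 4) N : ℝ) - S * (N / Real.log N ^ (T.card + 1))| ≤ ε * (S * (N / Real.log N ^ (T.card + 1)))

lemma nu_eq {k : ℕ} (h : Fin k → ℤ) (T : Finset (Fin k)) (q : ℕ) :
    nu h T q = nuT (fun _ => 1) (fun j => 0 + h j) T q := by
  unfold nu nuT
  simp only [Nat.cast_one, one_mul, zero_add]

lemma sing_eq {k : ℕ} (h : Fin k → ℤ) (T : Finset (Fin k)) : sing h T = singT (fun _ => 1) (fun j => 0 + h j) T := by
  funext z
  unfold sing singT
  simp only [nu_eq]

lemma exact_eq {k : ℕ} (h : Fin k → ℤ) (T : Finset (Fin k)) (a b : ℕ) (hab : a ≤ b) :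
    (exact h T a b : ℝ) = exactT (fun _ => 1) (fun j => 0 + h j) T b - exactT (fun _ => 1) (fun j => 0 + h j) T a := by
  classical
  have h1 : exactT (fun _ => 1) (fun j => 0 + h j) T b = exactT (fun _ => 1) (fun j => 0 + h j) T a + exact h T a b := by
    unfold exact exactT
    simp only [Nat.cast_one, one_mul, zero_add]
    rw [← card_union_of_disjoint]
    · congr 1
      rw [← filter_union]
      congr 1
      ext p
      simp only [mem_union, mem_Icc, mem_Ioc]
      omega
    · rw [disjoint_left]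
      intro p hp1 hp2
      simp only [mem_filter, mem_Icc, mem_Ioc] at hp1 hp2
      omega
  rw [h1]
  push_cast
  ring

/-- if all the differences are divisible by the primes up to `k + 1`, all the patterns are admissible -/
lemma adm {k : ℕ} (h : Fin k → ℤ) (hd : ∀ j, ∀ q : ℕ, q.Prime → q ≤ k + 1 → (q : ℤ) ∣ h j) (T : Finset (Fin k)) :
    Admissible h T := by
  classical
  intro q hq
  have hq2 := hq.two_le
  rcases Nat.lt_or_ge (k + 1) q with h1 | h1
  · rw [nu_eq]
    refine lt_of_le_of_lt (nuT_le _ _ T q hq (fun j hd => ?_)) ?_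
    · have h3 : q ∣ 1 := by exact_mod_cast hd
      have := Nat.le_of_dvd one_pos h3
      omega
    · have : T.card ≤ k := (card_le_univ T).trans (by rw [Fintype.card_fin])
      omega
  · -- the residue `1`
    unfold nu
    have h2 : 1 ∉ (range q).filter (fun n : ℕ => (q : ℤ) ∣ n ∨ ∃ j ∈ T, (q : ℤ) ∣ (n : ℤ) + h j) := by
      rw [mem_filter, not_and]
      rintro - (h3 | ⟨j, -, h3⟩)
      · have h4 : q ∣ 1 := by exact_mod_cast h3
        have := Nat.le_of_dvd one_pos h4
        omega
      · have h6 := hd j q hq h1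
        have h7 : (q : ℤ) ∣ 1 := by
          have h8 : (1 : ℤ) = ((1 : ℕ) : ℤ) + h j - h j := by ring
          rw [h8]
          exact dvd_sub h3 h6
        have h4 : q ∣ 1 := by exact_mod_cast h7
        have := Nat.le_of_dvd one_pos h4
        omega
    have h3 : ((range q).filter (fun n : ℕ => (q : ℤ) ∣ n ∨ ∃ j ∈ T, (q : ℤ) ∣ (n : ℤ) + h j)).card < (range q).card := by
      apply card_lt_card
      rw [ssubset_iff_of_subset (filter_subset _ _)]
      exact ⟨1, mem_range.2 (by omega), h2⟩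
    rwa [card_range] at h3

open Classical in
/-- **(1)** For every `k ≥ 1` there is `c > 0` with the following property. For `j < k` let `f j` be real analytic at `x j`,
let `K j` be the order of `f j - f j (x j)` at `x j`, and let `κ j ≠ 0`; let `δ₀ > 0`, `0 < ε₀ < 1 / 2`, `ε > 0`, `A`, `B`,
`W` and `r` be fixed. Then there is `C` such that for all large `M j`, all real `U j` with
`M j ^ (K j + δ₀) ≤ U j ≤ exp ((log M j) ^ (3 / 2 - ε₀))`, all integers `N` with `U j / M j ^ K j ≤ B N` and
`N ≤ (U j / M j ^ K j) log ^ r U j` for all `j`, and all integers `c₀ j` with `|c₀ j + κ j U j f j (x j)| ≤ B N`: all the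
vectors `(i j)` with `M j < i j ≤ 2 M j`, with at most `∏ M j / (log N) ^ W` exceptions, have the following property. For ALL
the vectors `h` of integers `h j ≥ 0` with `|h j - v j| ≤ (log N) ^ A`, where `v j = c₀ j + κ j ⌊U j f j (x j + 1 / i j)⌋`,
and all nonempty admissible `T`: for all `n` with `C (n + 4) ≤ N` the number of the primes `p` with `n + 4 < p ≤ N` such
that `p + h j` is a prime exactly for the `j ∈ T` is the expected one up to a factor within `ε` of `1`. If moreover
`N ≤ 2 ^ (n + 4)`, these `p` are in the interval `(n + 4, 2 ^ (n + 4)]` of the question.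

**(2)** All `T` are admissible if all the `h j` are divisible by all the primes up to `k + 1` (for `k = 1`: if `h` is even).

**(3)** Part (1) applies to all functions which are real analytic at `x₀` and not constant near `x₀`, with a suitable `K`,
and with `K = 1` if the derivative at `x₀` is not zero; for example, to `f x = x`, `x₀ = 0`: the integers
`c₀ + κ ⌊U / i⌋`. -/
theorem result :
    (∀ k : ℕ, 1 ≤ k → ∃ c : ℝ, 0 < c ∧ ∀ (f : Fin k → ℝ → ℝ) (x : Fin k → ℝ) (K : Fin k → ℕ), (∀ j, OrderAt (f j) (x j) (K j)) →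
      ∀ δ₀ ε₀ : ℝ, 0 < δ₀ → 0 < ε₀ → ε₀ < 1 / 2 → ∀ κ : Fin k → ℤ, (∀ j, κ j ≠ 0) → ∀ (A B W r : ℕ) (ε : ℝ), 0 < ε →
      ∃ C M₀ : ℕ, ∀ (M : Fin k → ℕ) (U : Fin k → ℝ) (N : ℕ), (∀ j, M₀ ≤ M j) → (∀ j, InRange (K j) δ₀ ε₀ (M j) (U j)) →
      (∀ j, U j / (M j : ℝ) ^ K j ≤ B * N ∧ (N : ℝ) ≤ U j / (M j : ℝ) ^ K j * Real.log (U j) ^ r) →
      ∀ c₀ : Fin k → ℤ, (∀ j, |(c₀ j : ℝ) + κ j * (U j * f j (x j))| ≤ B * N) →
        (((Fintype.piFinset fun j => Ioc (M j) (2 * M j)).filter (fun i : Fin k → ℕ =>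
          ¬ ∀ h : Fin k → ℤ, (∀ j, |(h j : ℝ) - ((c₀ j + κ j * ⌊U j * f j (x j + 1 / i j)⌋ : ℤ) : ℝ)| ≤ Real.log N ^ A) →
            (∀ j, 0 ≤ h j) → ∀ T : Finset (Fin k), T.Nonempty → Admissible h T → Expected c ε C N h T)).card : ℝ) ≤
          1 / Real.log N ^ W * ∏ j, (M j : ℝ)) ∧
    (∀ (k : ℕ) (h : Fin k → ℤ), (∀ j, ∀ q : ℕ, q.Prime → q ≤ k + 1 → (q : ℤ) ∣ h j) → ∀ T : Finset (Fin k), Admissible h T) ∧
    (∀ (f : ℝ → ℝ) (x₀ : ℝ), AnalyticAt ℝ f x₀ → (¬ ∀ᶠ x in nhds x₀, f x = f x₀) → ∃ K : ℕ, OrderAt f x₀ K) ∧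
    (∀ (f : ℝ → ℝ) (x₀ : ℝ), AnalyticAt ℝ f x₀ → deriv f x₀ ≠ 0 → OrderAt f x₀ 1) ∧
    OrderAt (fun x => x) 0 1 := by
  refine ⟨fun k hk => ?_, fun k h hd T => adm h hd T,
    fun f x₀ h1 h2 => Pool.Agent.W2helper30.AN.ord_exists h1 h2,
    fun f x₀ h1 h2 => Pool.Agent.W2helper30.AN.ord_one h1 h2,
    Pool.Agent.W2helper30.AN.ord_one (by fun_prop) (by simp)⟩
  obtain ⟨c, hc, hfam⟩ := fam_int k 1 hk
  refine ⟨c, hc, fun f x K hf δ₀ ε₀ hδ₀ hε₀ hε₀2 κ hκ A B W r ε hε => ?_⟩
  have hf' : ∀ j, Ord (f j) (x j) (K j) := hf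
  obtain ⟨C, M₀, h1⟩ := hfam f x K hf' δ₀ ε₀ hδ₀ hε₀ hε₀2 κ hκ (fun _ => 1) (fun j => ⟨le_rfl, le_rfl⟩) (fun _ => 0)
    (fun j => le_rfl) r B W A ε hε
  refine ⟨C + 1, M₀, fun M U N hM hU hN c₀ hc₀ => ?_⟩
  have h2 := h1 M U N hM (fun j => ⟨(hU j).1, (hU j).2⟩) (fun j => (hN j).1) (fun j => (hN j).2) c₀ hc₀
  refine le_trans (Nat.cast_le.2 (card_le_card fun i hi => ?_)) h2
  simp only [mem_filter] at hi ⊢
  refine ⟨hi.1, fun hgood => hi.2 fun h hh hh0 T hT hTadm => ?_⟩
  obtain ⟨S, g1, g2, g3⟩ := hgood h hh hh0 T hT (fun q hq => by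
    rw [← nu_eq]
    exact hTadm q hq)
  refine ⟨S, g1, ?_, fun n hn => ?_⟩
  · rw [sing_eq]
    exact g2
  · have hn1 : n + 4 ≤ N := by nlinarith
    rw [exact_eq h T (n + 4) N hn1]
    exact g3 n (by nlinarith)

end Pool.Agent.Results.MP_b51559_nt.Constellations
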