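import Pool.Agent.W2helper67.FD.Gr
import Pool.Agent.W2helper67.FD.Ex

/-!
# Constellations of primes in the intervals `(n + 4, 2 ^ (n + 4))` with differences near truncations of random real numbers

The question asks for two primes with the difference `2` in every interval `(n + 4, 2 ^ (n + 4))`. Here the difference `2` is
replaced by ALL the integers near the truncations `c₀ + κ ⌊Z t⌋` of random real numbers `t`, and pairs are replaced by
constellations `p, p + h 1, …, p + h k`, where the `t j` are independent and their distributions are arbitrary probability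
measures whose characteristic functions decay like some power, however small. Such measures may be singular and supported on
sets of Lebesgue measure zero. In contrast to results for fixed scales, ALL the intervals `(n + 4, N]` with `N` in a long
range are considered at once.

From Mathlib: `MeasureTheory.charFun μ ξ = ∫ exp (i ξ t) dμ(t)`, the characteristic function; `Measure.pi μ`, the product of
the measures `μ j`; `Measure.conv`, the convolution; `μ.real s`, the measure of `s` as a real number (the outer measure if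
`s` is not measurable).

Method: the decay gives a thin large spectrum of the truncations; a theorem of the starting files (`Pool.Agent.Y885`, in the
form of `Pool.Agent.W2helper30.CF` for vectors and exact patterns) gives the second moment of the numbers of the
constellations; the scales `N` are covered by a geometric progression; Borel-Cantelli.
-/

set_option autoImplicit false

namespace Pool.Agent.Results.MP_b51559_nt.FourierDecayConstellations

open Finset MeasureTheory Filter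
open Pool.Agent.W2helper30.CF (nuT singT exactT IntGood nuT_le exactT_mono)

/-- The characteristic function decays like `|ξ| ^ (-τ)`. -/
def FourierDecay (μ : Measure ℝ) (τ C₁ : ℝ) : Prop :=
  ∀ ξ : ℝ, 1 ≤ |ξ| → ‖MeasureTheory.charFun μ ξ‖ ≤ C₁ * |ξ| ^ (-τ)

/-- The number of the residues `n` modulo `q` such that `q` divides `n` or one of the `n + h j` with `j ∈ T`. -/
def nu {k : ℕ} (h : Fin k → ℤ) (T : Finset (Fin k)) (q : ℕ) : ℕ :=
  ((range q).filter (fun n : ℕ => (q : ℤ) ∣ n ∨ ∃ j ∈ T, (q : ℤ) ∣ (n : ℤ) + h j)).card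

/-- No prime divides `n ∏ (n + h j)`, `j ∈ T`, for all `n`. For `k = 1` this means that `h` is even. -/
def Admissible {k : ℕ} (h : Fin k → ℤ) (T : Finset (Fin k)) : Prop := ∀ q : ℕ, q.Prime → nu h T q < q

/-- The partial products of the singular series of the `n` and `n + h j`, `j ∈ T`. -/
noncomputable def sing {k : ℕ} (h : Fin k → ℤ) (T : Finset (Fin k)) (z : ℕ) : ℝ :=
  ∏ q ∈ (Icc 1 z).filter Nat.Prime, (1 - (nu h T q : ℝ) / q) / (1 - 1 / (q : ℝ)) ^ (T.card + 1)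

open Classical in
/-- The number of the primes `p` with `a < p ≤ b` such that `p + h j` is a prime exactly for the `j ∈ T`. -/
noncomputable def exact {k : ℕ} (h : Fin k → ℤ) (T : Finset (Fin k)) (a b : ℕ) : ℕ :=
  ((Ioc a b).filter (fun p : ℕ => p.Prime ∧ ∀ j, ((p : ℤ) + h j).toNat.Prime ↔ j ∈ T)).card

/-- The pattern `T` occurs with the expected frequency, up to a factor within `ε` of `1`, in all the intervals
`(n + 4, N]` with `C (n + 4) ≤ N`: the singular series `S` converges, `S ≥ c`, and the number of the primes `p` in the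
interval with this pattern is within `ε S N / (log N) ^ (#T + 1)` of `S N / (log N) ^ (#T + 1)`. -/
def Expected {k : ℕ} (c ε : ℝ) (C N : ℕ) (h : Fin k → ℤ) (T : Finset (Fin k)) : Prop :=
  ∃ S : ℝ, c ≤ S ∧ Tendsto (sing h T) atTop (nhds S) ∧ ∀ n : ℕ, C * (n + 4) ≤ N →
    |(exact h T (n + 4) N : ℝ) - S * (N / Real.log N ^ (T.card + 1))| ≤ ε * (S * (N / Real.log N ^ (T.card + 1)))

/-- The property of vectors `v` of integers of the size `Z` in the theorem: for EVERY `N` with `Z / B ≤ N ≤ Z (log Z) ^ r`,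
for ALL the vectors `h` of integers `h j ≥ 0` with `|h j - v j| ≤ (log Z) ^ A`, all the nonempty admissible patterns `T`
occur with the expected frequency in all the intervals `(n + 4, N]` with `C (n + 4) ≤ N`. -/
def AllScales {k : ℕ} (c ε : ℝ) (C A B r : ℕ) (Z : ℝ) (v : Fin k → ℤ) : Prop :=
  ∀ N : ℕ, Z ≤ B * N → (N : ℝ) ≤ Z * Real.log Z ^ r → ∀ h : Fin k → ℤ,
    (∀ j, |(h j : ℝ) - (v j : ℝ)| ≤ Real.log Z ^ A) → (∀ j, 0 ≤ h j) →
    ∀ T : Finset (Fin k), T.Nonempty → Admissible h T → Expected c ε C N h T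

lemma nu_eq {k : ℕ} (h : Fin k → ℤ) (T : Finset (Fin k)) (q : ℕ) : nu h T q = nuT (fun _ => 1) h T q := by
  unfold nu nuT
  simp only [Nat.cast_one, one_mul]

lemma sing_eq {k : ℕ} (h : Fin k → ℤ) (T : Finset (Fin k)) : sing h T = singT (fun _ => 1) h T := by
  funext z
  unfold sing singT
  simp only [nu_eq]

lemma exact_eq {k : ℕ} (h : Fin k → ℤ) (T : Finset (Fin k)) (a b : ℕ) (hab : a ≤ b) :
    (exact h T a b : ℝ) = exactT (fun _ => 1) h T b - exactT (fun _ => 1) h T a := by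
  classical
  have h1 : exactT (fun _ => 1) h T b = exactT (fun _ => 1) h T a + exact h T a b := by
    unfold exact exactT
    simp only [Nat.cast_one, one_mul]
    rw [← card_union_of_disjoint]
    · congr 1
      rw [← filter_union]
      congr 1
      ext p
      simp only [mem_union, mem_Icc, mem_Ioc]
      omega
    · rw [disjoint_left]
      intro p hp1 hp2
      simp only [mem_filter, mem_Icc, mem_Ioc] at hp1 hp2
      omega
  rw [h1]
  push_cast
  ring

/-- if all the differences are divisible by the primes up to `k + 1`, all the patterns are admissible -/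
lemma adm {k : ℕ} (h : Fin k → ℤ) (hd : ∀ j, ∀ q : ℕ, q.Prime → q ≤ k + 1 → (q : ℤ) ∣ h j) (T : Finset (Fin k)) :
    Admissible h T := by
  classical
  intro q hq
  have hq2 := hq.two_le
  rcases Nat.lt_or_ge (k + 1) q with h1 | h1
  · rw [nu_eq]
    refine lt_of_le_of_lt (nuT_le _ _ T q hq (fun j hd => ?_)) ?_
    · have h3 : q ∣ 1 := by exact_mod_cast hd
      have := Nat.le_of_dvd one_pos h3
      omega
    · have : T.card ≤ k := (card_le_univ T).trans (by rw [Fintype.card_fin])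
      omega
  · -- the residue `1`
    unfold nu
    have h2 : 1 ∉ (range q).filter (fun n : ℕ => (q : ℤ) ∣ n ∨ ∃ j ∈ T, (q : ℤ) ∣ (n : ℤ) + h j) := by
      rw [mem_filter, not_and]
      rintro - (h3 | ⟨j, -, h3⟩)
      · have h4 : q ∣ 1 := by exact_mod_cast h3
        have := Nat.le_of_dvd one_pos h4
        omega
      · have h6 := hd j q hq h1
        have h7 : (q : ℤ) ∣ 1 := by
          have h8 : (1 : ℤ) = ((1 : ℕ) : ℤ) + h j - h j := by ring
          rw [h8]
          exact dvd_sub h3 h6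
        have h4 : q ∣ 1 := by exact_mod_cast h7
        have := Nat.le_of_dvd one_pos h4
        omega
    have h3 : ((range q).filter (fun n : ℕ => (q : ℤ) ∣ n ∨ ∃ j ∈ T, (q : ℤ) ∣ (n : ℤ) + h j)).card < (range q).card := by
      apply card_lt_card
      rw [ssubset_iff_of_subset (filter_subset _ _)]
      exact ⟨1, mem_range.2 (by omega), h2⟩
    rwa [card_range] at h3

lemma all_of {k : ℕ} {c ε : ℝ} {C A B r : ℕ} {Z : ℝ} {v : Fin k → ℤ}
    (hall : ∀ N : ℕ, Z ≤ B * N → (N : ℝ) ≤ Z * Real.log Z ^ r → ∀ h : Fin k → ℤ,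
      (∀ j, |(h j : ℝ) - (v j : ℝ)| ≤ Real.log Z ^ A) → (∀ j, 0 ≤ h j) → IntGood c ε C N (fun _ => 1) h) :
    AllScales c ε (C + 1) A B r Z v := by
  intro N hN1 hN2 h hh hh0 T hT hTadm
  obtain ⟨S, g1, g2, g3⟩ := hall N hN1 hN2 h hh hh0 T hT (fun q hq => by
    rw [← nu_eq]
    exact hTadm q hq)
  refine ⟨S, g1, ?_, fun n hn => ?_⟩
  · rw [sing_eq]
    exact g2
  · have hn1 : n + 4 ≤ N := by nlinarith
    rw [exact_eq h T (n + 4) N hn1]
    exact g3 n (by nlinarith)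

/-- the form of the question -/
lemma question (k : ℕ) (hk : 1 ≤ k) (c ε : ℝ) (hc : 0 < c) (hε : ε < 1) (C A r : ℕ) : ∃ Z₀ : ℝ, ∀ Z : ℝ, Z₀ ≤ Z →
    ∀ v : Fin k → ℤ, AllScales c ε C A 1 (r + 1) Z v → ∀ n : ℕ, Z ≤ 2 ^ (n + 3) → C * ((n : ℝ) + 4) ≤ Z * Real.log Z ^ r →
    ∀ h : Fin k → ℤ, (∀ j, |(h j : ℝ) - (v j : ℝ)| ≤ Real.log Z ^ A) → (∀ j, 0 ≤ h j) → Admissible h univ →
    ∃ p : ℕ, p.Prime ∧ n + 4 < p ∧ p < 2 ^ (n + 4) ∧ ∀ j, ((p : ℤ) + h j).toNat.Prime := by
  classical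
  -- the size of `C (n + 4)`
  obtain ⟨n₁, hn₁⟩ : ∃ n₁ : ℕ, ∀ n : ℕ, n₁ ≤ n → C * (n + 4) < 2 ^ (n + 4) := by
    have h1 := (isLittleO_pow_const_const_pow_of_one_lt (R := ℝ) 1 (by norm_num : (1 : ℝ) < 2)).bound
      (show (0 : ℝ) < 1 / (C + 1) by positivity)
    obtain ⟨m₂, h2⟩ := eventually_atTop.mp h1
    refine ⟨m₂, fun n hn => ?_⟩
    have h3 := h2 (n + 4) (by omega)
    rw [Real.norm_of_nonneg (by positivity), Real.norm_of_nonneg (by positivity), pow_one] at h3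
    have h5 : ((C : ℝ) + 1) * ((n + 4 : ℕ) : ℝ) ≤ 2 ^ (n + 4) := by
      have h6 : (0 : ℝ) < C + 1 := by positivity
      calc ((C : ℝ) + 1) * ((n + 4 : ℕ) : ℝ) ≤ (C + 1) * (1 / (C + 1) * 2 ^ (n + 4)) := mul_le_mul_of_nonneg_left h3 h6.le
        _ = 2 ^ (n + 4) := by field_simp
    have h7 : (C + 1) * (n + 4) ≤ 2 ^ (n + 4) := by exact_mod_cast h5
    nlinarith
  refine ⟨max (2 ^ (n₁ + 3) + 1) (Real.exp 2), fun Z hZ v hall n hn1 hn2 h hh hh0 hadm => ?_⟩
  have hZ1 : (2 : ℝ) ^ (n₁ + 3) + 1 ≤ Z := (le_max_left _ _).trans hZ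
  have hZ2 : Real.exp 2 ≤ Z := (le_max_right _ _).trans hZ
  have hZ0 : 0 < Z := lt_of_lt_of_le (Real.exp_pos 2) hZ2
  have h2pow : (1 : ℝ) ≤ 2 ^ (n₁ + 3) := one_le_pow₀ (by norm_num)
  have hZ3 : 2 ≤ Z := by linarith
  have hlog : 2 ≤ Real.log Z := by
    rw [Real.le_log_iff_exp_le hZ0]
    exact hZ2
  have hnn : n₁ ≤ n := by
    have h1 : (2 : ℝ) ^ (n₁ + 3) ≤ 2 ^ (n + 3) := by linarith
    have h2 := (pow_le_pow_iff_right₀ (by norm_num : (1 : ℝ) < 2)).1 h1
    omega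
  obtain ⟨N, hN⟩ : ∃ N : ℕ, N = max ⌈Z⌉₊ (C * (n + 4)) := ⟨_, rfl⟩
  have hNZ : Z ≤ N := (Nat.le_ceil Z).trans (by rw [hN]; exact_mod_cast le_max_left _ _)
  have hNC : C * (n + 4) ≤ N := by rw [hN]; exact le_max_right _ _
  have hceil : ((⌈Z⌉₊ : ℕ) : ℝ) < Z + 1 := Nat.ceil_lt_add_one hZ0.le
  have hLr : 1 ≤ Real.log Z ^ r := one_le_pow₀ (by linarith)
  have hNup : (N : ℝ) ≤ Z * Real.log Z ^ (r + 1) := by
    rw [hN, Nat.cast_max]
    apply max_le
    · calc ((⌈Z⌉₊ : ℕ) : ℝ) ≤ Z + 1 := hceil.le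
        _ ≤ Z * 2 := by linarith
        _ ≤ Z * Real.log Z ^ (r + 1) := by
            apply mul_le_mul_of_nonneg_left _ hZ0.le
            rw [pow_succ]
            nlinarith
    · push_cast
      refine hn2.trans (mul_le_mul_of_nonneg_left ?_ hZ0.le)
      exact pow_le_pow_right₀ (by linarith) (by omega)
  have hNlt : N < 2 ^ (n + 4) := by
    rw [hN]
    apply max_lt
    · have h1 : ((⌈Z⌉₊ : ℕ) : ℝ) < 2 ^ (n + 4) := by
        have h2 : (2 : ℝ) ^ (n + 4) = 2 ^ (n + 3) * 2 := by rw [← pow_succ]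
        rw [h2]
        linarith
      exact_mod_cast h1
    · exact hn₁ n hnn
  obtain ⟨S, hS1, -, hS3⟩ := hall N (by rw [Nat.cast_one, one_mul]; exact hNZ) hNup h hh hh0 univ
    ⟨⟨0, by omega⟩, mem_univ _⟩ hadm
  have h1 := hS3 n hNC
  have hN1 : (1 : ℝ) < N := by linarith
  have hlN : 0 < Real.log (N : ℝ) := Real.log_pos hN1
  have hmain : 0 < S * ((N : ℝ) / Real.log N ^ ((univ : Finset (Fin k)).card + 1)) := by
    have : 0 < S := by linarith
    have : (0 : ℝ) < N := by linarith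
    positivity
  have hpos : 0 < (exact h univ (n + 4) N : ℝ) := by
    have h2 := (abs_le.1 h1).1
    nlinarith
  have hpos' : 0 < exact h univ (n + 4) N := by exact_mod_cast hpos
  unfold exact at hpos'
  obtain ⟨p, hp⟩ := card_pos.1 hpos'
  rw [mem_filter, mem_Ioc] at hp
  exact ⟨p, hp.2.1, hp.1.1, lt_of_le_of_lt hp.1.2 hNlt, fun j => (hp.2.2 j).2 (mem_univ j)⟩

/-- **(1)** For every `k ≥ 1` there is `c > 0`, and for every `ε > 0` there is `C`, with the following properties. Let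
`κ j ≠ 0`, `A`, `B`, `r`, `u`, `τ > 0` and `C₁` be fixed. For all large `Z`, all probability measures `μ 1, …, μ k` on
`[0, 1)` whose characteristic functions decay like `C₁ |ξ| ^ (-τ)`, and all integers `c₀ j` with `|c₀ j| ≤ B Z`: for all the
vectors `t` outside a set of a measure (for the product of the `μ j`) of at most `(log Z) ^ (-u)`, the vector of the
`v j = c₀ j + κ j ⌊Z t j⌋` has the property `AllScales`: for EVERY `N` with `Z / B ≤ N ≤ Z (log Z) ^ r`, ALL the vectors `h` of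
integers `h j ≥ 0` with `|h j - v j| ≤ (log Z) ^ A`, all nonempty admissible `T` and all `n` with `C (n + 4) ≤ N`, the number
of the primes `p` with `n + 4 < p ≤ N` such that `p + h j` is a prime exactly for the `j ∈ T` is the expected one up to a
factor within `ε` of `1`.

**(2)** ALL but finitely many truncations of almost all vectors of real numbers. Let `μ j`, `κ j` be as in (1), let `a i` be
real numbers with `a i ≥ exp (i ^ δ)` for all large `i`, where `δ > 0` (for example, `a i = 2 ^ i` or `a i = 10 ^ i`), and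
`c₀ i j` integers with `|c₀ i j| ≤ B a i`. For almost all `t` (for the product of the `μ j`), for all `A`, `B'` and `r`: for
all but finitely many `i`, the vector of the `v j = c₀ i j + κ j ⌊a i t j⌋` has the property `AllScales` with `Z = a i`.

**(3)** The form of the question. If `ε < 1` and `Z` is large, then for all vectors `v` with this property (for `B = 1` and
`r + 1`): for EVERY `n` with `2 ^ (n + 3) ≥ Z` and `C (n + 4) ≤ Z (log Z) ^ r`, and ALL the vectors `h` of integers `h j ≥ 0`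
with `|h j - v j| ≤ (log Z) ^ A` which are admissible, there is a prime `p` with `n + 4 < p < 2 ^ (n + 4)` such that all the
`p + h j` are primes.

**(4)** All `T` are admissible if all the `h j` are divisible by all the primes up to `k + 1` (for `k = 1`: if `h` is even).

**(5)** The hypothesis holds with `τ = 1`, `C₁ = 2` for the uniform distributions on the intervals `[w, w + 1)` (for `w = 0`
the measure is on `[0, 1)`), and if it holds for `μ`, then it holds for the convolutions of `μ` and all probability measures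
(with the same `τ` and `C₁`). -/
theorem result :
    (∀ k : ℕ, 1 ≤ k → ∃ c : ℝ, 0 < c ∧ ∀ ε : ℝ, 0 < ε → ∃ C : ℕ,
      (∀ (τ C₁ : ℝ), 0 < τ → ∀ κ : Fin k → ℤ, (∀ j, κ j ≠ 0) → ∀ A B r u : ℕ, ∃ Z₀ : ℝ, ∀ Z : ℝ, Z₀ ≤ Z →
        ∀ (μ : Fin k → Measure ℝ) [∀ j, IsProbabilityMeasure (μ j)], (∀ j, FourierDecay (μ j) τ C₁) →
        (∀ j, ∀ᵐ t ∂(μ j), 0 ≤ t ∧ t < 1) → ∀ c₀ : Fin k → ℤ, (∀ j, |(c₀ j : ℝ)| ≤ B * Z) →
        (Measure.pi μ).real {t | ¬ AllScales c ε C A B r Z (fun j => c₀ j + κ j * ⌊Z * t j⌋)} ≤ 1 / Real.log Z ^ u) ∧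
      (∀ (τ C₁ : ℝ), 0 < τ → ∀ (μ : Fin k → Measure ℝ) [∀ j, IsProbabilityMeasure (μ j)],
        (∀ j, FourierDecay (μ j) τ C₁) → (∀ j, ∀ᵐ t ∂(μ j), 0 ≤ t ∧ t < 1) → ∀ κ : Fin k → ℤ, (∀ j, κ j ≠ 0) →
        ∀ (B : ℕ) (δ : ℝ), 0 < δ → ∀ (a : ℕ → ℝ) (c₀ : ℕ → Fin k → ℤ),
        (∀ᶠ i : ℕ in atTop, Real.exp ((i : ℝ) ^ δ) ≤ a i) → (∀ i j, |(c₀ i j : ℝ)| ≤ B * a i) →
        ∀ᵐ t ∂(Measure.pi μ), ∀ A B' r : ℕ, ∀ᶠ i in atTop,
          AllScales c ε C A B' r (a i) (fun j => c₀ i j + κ j * ⌊a i * t j⌋))) ∧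
    (∀ k : ℕ, 1 ≤ k → ∀ c ε : ℝ, 0 < c → ε < 1 → ∀ C A r : ℕ, ∃ Z₀ : ℝ, ∀ Z : ℝ, Z₀ ≤ Z → ∀ v : Fin k → ℤ,
      AllScales c ε C A 1 (r + 1) Z v → ∀ n : ℕ, Z ≤ 2 ^ (n + 3) → C * ((n : ℝ) + 4) ≤ Z * Real.log Z ^ r →
      ∀ h : Fin k → ℤ, (∀ j, |(h j : ℝ) - (v j : ℝ)| ≤ Real.log Z ^ A) → (∀ j, 0 ≤ h j) → Admissible h univ →
      ∃ p : ℕ, p.Prime ∧ n + 4 < p ∧ p < 2 ^ (n + 4) ∧ ∀ j, ((p : ℤ) + h j).toNat.Prime) ∧
    (∀ (k : ℕ) (h : Fin k → ℤ), (∀ j, ∀ q : ℕ, q.Prime → q ≤ k + 1 → (q : ℤ) ∣ h j) → ∀ T : Finset (Fin k), Admissible h T) ∧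
    (∀ w : ℝ, IsProbabilityMeasure (volume.restrict (Set.Ico w (w + 1))) ∧
      FourierDecay (volume.restrict (Set.Ico w (w + 1))) 1 2) ∧
    (∀ (μ ν : Measure ℝ) [IsProbabilityMeasure μ] [IsProbabilityMeasure ν] (τ C₁ : ℝ), FourierDecay μ τ C₁ →
      FourierDecay (μ.conv ν) τ C₁) := by
  classical
  refine ⟨fun k hk => ?_, fun k hk c ε hc hε C A r => question k hk c ε hc hε C A r, fun k h hd T => adm h hd T,
    fun u => ⟨Pool.Agent.W2helper67.FD.prob_unif u, Pool.Agent.W2helper67.FD.fdec_unif u⟩,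
    fun μ ν _ _ τ C₁ h => Pool.Agent.W2helper67.FD.fdec_conv μ ν h⟩
  obtain ⟨c, hc, hfam⟩ := Pool.Agent.W2helper67.FD.fd_int k hk
  refine ⟨c, hc, fun ε hε => ?_⟩
  obtain ⟨C, hC⟩ := hfam ε hε
  have H1 : ∀ (τ C₁ : ℝ), 0 < τ → ∀ κ : Fin k → ℤ, (∀ j, κ j ≠ 0) → ∀ A B r u : ℕ, ∃ Z₀ : ℝ, ∀ Z : ℝ, Z₀ ≤ Z →
        ∀ (μ : Fin k → Measure ℝ) [∀ j, IsProbabilityMeasure (μ j)], (∀ j, FourierDecay (μ j) τ C₁) →
        (∀ j, ∀ᵐ t ∂(μ j), 0 ≤ t ∧ t < 1) → ∀ c₀ : Fin k → ℤ, (∀ j, |(c₀ j : ℝ)| ≤ B * Z) →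
        (Measure.pi μ).real {t | ¬ AllScales c ε (C + 1) A B r Z (fun j => c₀ j + κ j * ⌊Z * t j⌋)} ≤
          1 / Real.log Z ^ u := by
    intro τ C₁ hτ κ hκ A B r u
    obtain ⟨Z₀, h1⟩ := hC τ hτ C₁ κ hκ r B u A
    refine ⟨Z₀, fun Z hZ μ _ hμ hs c₀ hc₀ => ?_⟩
    refine le_trans (measureReal_mono (fun t ht => ?_) (measure_ne_top _ _)) (h1 Z hZ μ hμ hs c₀ hc₀)
    intro hcon
    exact ht (all_of hcon)
  refine ⟨C + 1, H1, ?_⟩
  intro τ C₁ hτ μ _ hμ hs κ hκ B δ hδ a c₀ ha hc₀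
  refine ae_all_iff.2 fun A => ae_all_iff.2 fun B' => ae_all_iff.2 fun r => ?_
  obtain ⟨u, hu⟩ := exists_nat_ge (2 / δ)
  have hu2 : 2 ≤ δ * u := by
    rw [div_le_iff₀ hδ] at hu
    linarith
  obtain ⟨Z₀, h⟩ := H1 τ C₁ hτ κ hκ A (B + B') r u
  have h2 := Pool.Agent.W2helper67.FD.borelG (Measure.pi μ)
    (fun i => {t | ¬ AllScales c ε (C + 1) A (B + B') r (a i) (fun j => c₀ i j + κ j * ⌊a i * t j⌋)}) a δ hδ ha u hu2
    (max Z₀ 0) (fun i hi => h (a i) ((le_max_left _ _).trans hi) μ hμ hs (c₀ i) (fun j => by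
      push_cast
      have h3 : 0 ≤ a i := (le_max_right _ _).trans hi
      have h4 : 0 ≤ (B' : ℝ) * a i := by positivity
      have := hc₀ i j
      linarith))
  filter_upwards [h2] with t ht
  filter_upwards [ht] with i hi
  simp only [not_not] at hi
  intro N hN1 hN2 g hg hg0 T hT hadm
  refine hi N ?_ hN2 g hg hg0 T hT hadm
  push_cast
  have : 0 ≤ (B : ℝ) * N := by positivity
  linarith

end Pool.Agent.Results.MP_b51559_nt.FourierDecayConstellations
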