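import Pool.Agent.W2helper64.RK.MainP
import Pool.Agent.W2helper64.BH.Quad
import Pool.Agent.W2helper64.SI.Fin

set_option autoImplicit false

/-!
# Twin pairs, Schinzel's Hypothesis H and the Bateman-Horn formula in very short intervals for the random
# sieve model of Banks, Ford and Tao

For every prime `p` a residue class `a p` modulo `p` is chosen uniformly and independently. The random
set `R` consists of the natural numbers `n ≥ e ^ 2` which avoid the class `a p` for every prime `p` with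
`∏_(q ≤ p) (1 - 1 / q) ≥ 1 / log n`; this is the random sieve model for the primes of Banks, Ford and
Tao, in which the classes `0 mod p` of the sieve of Eratosthenes are replaced by random ones.

The problem asks for a twin prime in every interval `(n + 4, 2 ^ (n + 4))`. We prove that in the model
much more is true: almost surely, for every large `n` there is an `r` with `n < r ≤ n + (log n) ^ C` such
that `r` and `r + 2` are in `R`, with an absolute constant `C`. The same holds for the pattern `n + h`,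
`h ∈ H`, of every admissible set `H`, and for every system of polynomials without a local obstruction,
where the constant only depends on the sum of the degrees.

In the intervals `(x, x + H]` with `exp ((log x) ^ δ) ≤ H ≤ x`, for any `δ > 0`, we prove the formula of Hardy
and Littlewood for the number of twin pairs, with the twin prime constant, and the formula of Bateman and
Horn for every system of polynomials, with the error `H / (log x) ^ U` for every `U`.
-/

namespace Pool.Agent.Results.MP_b51559_nt.RandomSieveShortIntervals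

open Filter MeasureTheory Polynomial Topology

/-- the product `V y = ∏_(p ≤ y, p prime) (1 - 1 / p)` -/
noncomputable def V (y : ℕ) : ℝ := ∏ p ∈ (Finset.Icc 1 y).filter Nat.Prime, (1 - 1 / (p : ℝ))

/-- the random set: all `n ≥ e ^ 2` outside the chosen class `a p` for every prime `p` with
`V p ≥ 1 / log n` -/
def R (a : (p : Nat.Primes) → ZMod (p : ℕ)) : Set ℕ :=
  {n | Real.exp 2 ≤ n ∧ ∀ p : Nat.Primes, 1 ≤ V (p : ℕ) * Real.log n → ((n : ℕ) : ZMod (p : ℕ)) ≠ a p}

/-- the chosen classes `a p`, `p` prime, are independent and uniform modulo `p` -/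
noncomputable def law : Measure ((p : Nat.Primes) → ZMod (p : ℕ)) :=
  Measure.infinitePi fun p : Nat.Primes => ProbabilityTheory.uniformOn (Set.univ : Set (ZMod (p : ℕ)))

/-- the system `f` has no local obstruction: for every prime `p` some integer `z` has all values
`f i z` outside the class `a p` -/
def Free {g : ℕ} (a : (p : Nat.Primes) → ZMod (p : ℕ)) (f : Fin g → ℤ[X]) : Prop :=
  ∀ p : Nat.Primes, ∃ z : ℤ, ∀ i, (((f i).eval z : ℤ) : ZMod (p : ℕ)) ≠ a p

/-- `H` does not contain all residue classes modulo any prime -/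
def Admissible (H : Finset ℕ) : Prop := ∀ p : ℕ, p.Prime → ∃ z : ℕ, ∀ h ∈ H, ¬ h ≡ z [MOD p]

/-- twice the product of `1 - 1 / (p - 1) ^ 2` over the odd primes `p ≤ z` -/
noncomputable def twinProduct (z : ℕ) : ℝ :=
  2 * ∏ p ∈ (Finset.Icc 3 z).filter Nat.Prime, (1 - 1 / ((p : ℝ) - 1) ^ 2)

open Classical in
/-- the number of the `r` with `x < r ≤ x + H` and `r, r + 2 ∈ R` -/
noncomputable def twins (a : (p : Nat.Primes) → ZMod (p : ℕ)) (x H : ℕ) : ℕ :=
  ((Finset.Ioc x (x + H)).filter fun r : ℕ => r ∈ R a ∧ r + 2 ∈ R a).card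

/-- the primes `p` with `m ≤ p ≤ z` -/
def primes (m z : ℕ) : Finset Nat.Primes := (Finset.Icc m z).subtype Nat.Prime

instance (p : Nat.Primes) : Fact (p : ℕ).Prime := ⟨p.2⟩

open Classical in
/-- the number of the residue classes `m` modulo `p` for which one of the values `f i m` lies in the
class `a p` -/
noncomputable def nu {g : ℕ} (f : Fin g → ℤ[X]) (a : (p : Nat.Primes) → ZMod (p : ℕ)) (p : Nat.Primes) : ℕ :=
  ((Finset.range (p : ℕ)).filter fun m : ℕ => ∃ i, (((f i).eval (m : ℤ) : ℤ) : ZMod (p : ℕ)) = a p).card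

/-- the partial products of the singular series of the system `f` -/
noncomputable def series {g : ℕ} (f : Fin g → ℤ[X]) (a : (p : Nat.Primes) → ZMod (p : ℕ)) (z : ℕ) : ℝ :=
  ∏ p ∈ primes 1 z, (1 - (nu f a p : ℝ) / (p : ℕ)) / (1 - 1 / ((p : ℕ) : ℝ)) ^ g

open Classical in
/-- the number of the `n` with `x < n ≤ x + H` for which all values `f i n` are in `R` -/
noncomputable def count {g : ℕ} (f : Fin g → ℤ[X]) (a : (p : Nat.Primes) → ZMod (p : ℕ)) (x H : ℕ) : ℕ :=
  ((Finset.Ioc x (x + H)).filter fun n : ℕ => ∀ i, ∃ r ∈ R a, (r : ℤ) = (f i).eval (n : ℤ)).card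

/-- the sum of `∏_i 1 / log (f i n)` over the `n` with `x < n ≤ x + H` -/
noncomputable def mainTerm {g : ℕ} (f : Fin g → ℤ[X]) (x H : ℕ) : ℝ :=
  ∑ n ∈ Finset.Ioc x (x + H), ∏ i, (1 / Real.log (((f i).eval (n : ℤ) : ℤ) : ℝ))

theorem polys (k : ℕ) : ∃ C : ℝ, ∀ᵐ a ∂law, ∀ (g : ℕ) (f : Fin g → ℤ[X]),
    (∀ i, 0 < (f i).natDegree ∧ 0 < (f i).leadingCoeff) → ∑ i, (f i).natDegree ≤ k → Free a f →
      ∀ᶠ x : ℕ in atTop, ∃ n : ℕ, x < n ∧ (n : ℝ) ≤ x + Real.log x ^ C ∧
        ∀ i, ∃ r ∈ R a, (r : ℤ) = (f i).eval (n : ℤ) := by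
  obtain ⟨C, -, h⟩ := Pool.Agent.W2helper64.RK.ae_poly (k + 1) (by omega)
  refine ⟨C, ?_⟩
  show ∀ᵐ a ∂Pool.Agent.W2helper64.RS.law, _
  filter_upwards [h] with a ha g f hf hk hfree
  exact ha g f (fun i => (hf i).1) (fun i => (hf i).2) (by omega) hfree

/-- the pattern `X + h` of an admissible set is free for every choice of the classes -/
theorem free_shift (H : Finset ℕ) (hH : Admissible H) (a : (p : Nat.Primes) → ZMod (p : ℕ)) :
    Free a fun i : Fin H.card => (X + C ((H.orderEmbOfFin rfl i : ℕ) : ℤ) : ℤ[X]) := by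
  intro p
  obtain ⟨z, hz⟩ := hH p p.2
  have : NeZero (p : ℕ) := ⟨p.2.ne_zero⟩
  refine ⟨((a p - (z : ZMod (p : ℕ))).val : ℤ), fun i h => ?_⟩
  rw [eval_add, eval_X, eval_C] at h
  push_cast at h
  rw [ZMod.natCast_val, ZMod.cast_id', id] at h
  have h1 : ((H.orderEmbOfFin rfl i : ℕ) : ZMod (p : ℕ)) = (z : ZMod (p : ℕ)) := by
    linear_combination h
  rw [ZMod.natCast_eq_natCast_iff] at h1
  exact hz _ (Finset.orderEmbOfFin_mem H rfl i) h1

theorem patterns (k : ℕ) : ∃ C : ℝ, ∀ᵐ a ∂law, ∀ H : Finset ℕ, H.card ≤ k → Admissible H →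
    ∀ᶠ x : ℕ in atTop, ∃ n : ℕ, x < n ∧ (n : ℝ) ≤ x + Real.log x ^ C ∧ ∀ h ∈ H, n + h ∈ R a := by
  obtain ⟨C0, hC⟩ := polys k
  refine ⟨C0, ?_⟩
  filter_upwards [hC] with a ha H hk hH
  have h1 := ha H.card (fun i => (X + C ((H.orderEmbOfFin rfl i : ℕ) : ℤ) : ℤ[X]))
    (fun i => ⟨by rw [natDegree_X_add_C]; norm_num, by rw [leadingCoeff_X_add_C]; norm_num⟩) (by
      simp only [natDegree_X_add_C]
      simpa using hk) (free_shift H hH a)
  filter_upwards [h1] with x hx
  obtain ⟨n, hn1, hn2, hn3⟩ := hx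
  refine ⟨n, hn1, hn2, fun h hh => ?_⟩
  have hmem : h ∈ Set.range (H.orderEmbOfFin rfl) := by
    rw [Finset.range_orderEmbOfFin]
    exact hh
  obtain ⟨i, hi⟩ := hmem
  obtain ⟨r, hr, hre⟩ := hn3 i
  rw [eval_add, eval_X, eval_C, hi] at hre
  have : r = n + h := by exact_mod_cast hre
  rwa [this] at hr

/-! ### the formulas of Hardy-Littlewood and Bateman-Horn in short intervals -/

theorem series_eq {g : ℕ} (f : Fin g → ℤ[X]) (a : (p : Nat.Primes) → ZMod (p : ℕ)) (z : ℕ) :
    series f a z = Pool.Agent.W2helper64.BH.PP f a z / Pool.Agent.W2helper64.RS.V z ^ g := by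
  rw [Pool.Agent.W2helper64.BH.PP_div]
  unfold series
  refine Finset.prod_congr ?_ fun p _ => ?_
  · ext p
    rw [Pool.Agent.W2helper64.BH.mem_Pr]
    have h : p ∈ primes 1 z ↔ (p : ℕ) ∈ Finset.Icc 1 z := Finset.mem_subtype
    rw [h, Finset.mem_Icc]
    omega
  · unfold Pool.Agent.W2helper64.BH.FF
    rw [Pool.Agent.W2helper64.BH.nuB_eq]
    congr 4
    unfold nu Pool.Agent.W2helper64.BH.nuR
    congr 1
    ext m
    rw [Pool.Agent.W2helper64.RK.mf', Pool.Agent.W2helper64.RK.mf', Pool.Agent.W2helper64.BH.mem_Im]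

theorem nu_lt_iff {g : ℕ} (f : Fin g → ℤ[X]) (a : (p : Nat.Primes) → ZMod (p : ℕ)) (p : Nat.Primes) :
    nu f a p < (p : ℕ) ↔ ∃ z : ℤ, ∀ i, (((f i).eval z : ℤ) : ZMod (p : ℕ)) ≠ a p := by
  classical
  constructor
  · intro h
    by_contra hcon
    push Not at hcon
    have : nu f a p = (p : ℕ) := by
      unfold nu
      have h1 : (Finset.range (p : ℕ)).filter (fun m : ℕ => ∃ i, (((f i).eval (m : ℤ) : ℤ) : ZMod (p : ℕ)) = a p) =
          Finset.range (p : ℕ) := Finset.filter_true_of_mem fun m _ => hcon (m : ℤ)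
      have h2 := congrArg Finset.card h1
      rw [Finset.card_range] at h2
      refine Eq.trans ?_ h2
      congr
    omega
  · rintro ⟨z, hz⟩
    unfold nu
    have hp0 : (0 : ℤ) < (p : ℕ) := by exact_mod_cast p.2.pos
    have hm0 := Int.emod_nonneg z hp0.ne'
    have hm1 := Int.emod_lt_of_pos z hp0
    set m : ℕ := (z % ((p : ℕ) : ℤ)).toNat with hm
    have hmz : (m : ℤ) = z % ((p : ℕ) : ℤ) := Int.toNat_of_nonneg hm0
    have hmp : m < (p : ℕ) := by omega
    have hval : ∀ i, (((f i).eval (m : ℤ) : ℤ) : ZMod (p : ℕ)) ≠ a p := by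
      intro i h
      apply hz i
      rw [← h, ZMod.intCast_eq_intCast_iff]
      have h1 : (z : ℤ) ≡ (m : ℤ) [ZMOD ((p : ℕ) : ℤ)] := by
        rw [hmz]
        exact (Int.mod_modEq z _).symm
      have h2 : (z : ℤ) - m ∣ (f i).eval z - (f i).eval (m : ℤ) := sub_dvd_eval_sub _ _ _
      have h3 : (((p : ℕ) : ℤ)) ∣ (m : ℤ) - z := h1.dvd
      have h4 : (((p : ℕ) : ℤ)) ∣ (z : ℤ) - m := by
        rw [← neg_sub]; exact h3.neg_right
      exact (Int.modEq_iff_dvd.mpr (by
        rw [← neg_sub]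
        exact (h4.trans h2).neg_right))
    refine lt_of_lt_of_eq (Finset.card_lt_card ⟨Finset.filter_subset _ _, fun hsub => ?_⟩) (Finset.card_range _)
    have := hsub (Finset.mem_range.mpr hmp)
    obtain ⟨i, hi⟩ := (Pool.Agent.W2helper64.RK.mf'.mp this).2
    exact hval i hi

theorem batemanHorn : ∀ᵐ a ∂law, ∀ (g : ℕ) (f : Fin g → ℤ[X]), Function.Injective f →
    (∀ i, 0 < (f i).natDegree ∧ 0 < (f i).leadingCoeff) →
      ∃ S : ℝ, 0 ≤ S ∧ Tendsto (series f a) atTop (𝓝 S) ∧ (0 < S ↔ Free a f) ∧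
        ∀ M U : ℕ, ∀ᶠ x : ℕ in atTop, ∀ H : ℕ, H ≤ x → Real.log x ≤ Real.log H ^ M →
          |(count f a x H : ℝ) - S * mainTerm f x H| ≤ H / Real.log x ^ U := by
  show ∀ᵐ a ∂Pool.Agent.W2helper64.RS.law, _
  filter_upwards [Pool.Agent.W2helper64.SI.ae_SI] with a hb g f hinj hf
  obtain ⟨S, h1, h2, h3, h4⟩ := hb g f hinj (fun i => (hf i).1) (fun i => (hf i).2)
  have k5 : ∀ x H : ℕ, count f a x H = Pool.Agent.W2helper64.SI.cntW f a x H := by
    intro x H
    unfold count Pool.Agent.W2helper64.SI.cntW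
    congr 1
    ext n
    rw [Pool.Agent.W2helper64.RK.mf', Pool.Agent.W2helper64.RK.mf']
    rfl
  simp only [k5]
  refine ⟨S, h1, ?_, ?_, fun M U => h4 M U⟩
  · refine h2.congr fun z => (series_eq f a z).symm
  · rw [h3]
    refine forall_congr' fun p => ?_
    rw [← nu_lt_iff, Pool.Agent.W2helper64.BH.nuB_eq]
    have : Pool.Agent.W2helper64.BH.nuR f (p : ℕ) (a p) = nu f a p := by
      unfold nu Pool.Agent.W2helper64.BH.nuR
      congr 1
      ext m
      rw [Pool.Agent.W2helper64.RK.mf', Pool.Agent.W2helper64.RK.mf', Pool.Agent.W2helper64.BH.mem_Im]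
    rw [this]

/-! ### twin pairs -/

/-- the system `X`, `X + 2` -/
noncomputable def twin : Fin 2 → ℤ[X] := fun i => X + C (2 * ((i : ℕ) : ℤ))

theorem twin_eval (i : Fin 2) (z : ℤ) : (twin i).eval z = z + 2 * ((i : ℕ) : ℤ) := by
  simp [twin]

theorem twin_deg (i : Fin 2) : 0 < (twin i).natDegree ∧ 0 < (twin i).leadingCoeff := by
  unfold twin
  exact ⟨by rw [natDegree_X_add_C]; norm_num, by rw [leadingCoeff_X_add_C]; norm_num⟩

theorem twin_inj : Function.Injective twin := by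
  intro i j h
  have h1 : (twin i).eval 0 = (twin j).eval 0 := by rw [h]
  rw [twin_eval, twin_eval] at h1
  ext
  omega

theorem nu_twin (a : (p : Nat.Primes) → ZMod (p : ℕ)) (p : Nat.Primes) :
    nu twin a p = ((Finset.range (p : ℕ)).filter fun m : ℕ =>
      ((m : ℕ) : ZMod (p : ℕ)) = a p ∨ ((m : ℕ) : ZMod (p : ℕ)) + 2 = a p).card := by
  unfold nu
  congr 1
  ext m
  rw [Pool.Agent.W2helper64.RK.mf', Pool.Agent.W2helper64.RK.mf']
  refine and_congr_right fun _ => ?_
  rw [Fin.exists_fin_two, twin_eval, twin_eval]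
  push_cast
  simp

theorem nu_twin_two (a : (p : Nat.Primes) → ZMod (p : ℕ)) (p : Nat.Primes) (hp : (p : ℕ) = 2) :
    nu twin a p = 1 := by
  rw [nu_twin]
  obtain ⟨p, hpp⟩ := p
  have hp' : p = 2 := hp
  subst hp'
  have key : ∀ c : ZMod 2, ((Finset.range 2).filter fun m : ℕ =>
      ((m : ℕ) : ZMod 2) = c ∨ ((m : ℕ) : ZMod 2) + 2 = c).card = 1 := by
    decide
  exact key (a ⟨2, hpp⟩)

theorem nu_twin_odd (a : (p : Nat.Primes) → ZMod (p : ℕ)) (p : Nat.Primes) (hp : 3 ≤ (p : ℕ)) :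
    nu twin a p = 2 := by
  classical
  have h20 : (2 : ZMod (p : ℕ)) ≠ 0 := by
    intro h0
    have h1 : ((2 : ℕ) : ZMod (p : ℕ)) = 0 := by exact_mod_cast h0
    rw [ZMod.natCast_eq_zero_iff] at h1
    have := Nat.le_of_dvd (by norm_num) h1
    omega
  have hne : a p ≠ a p - 2 := by
    intro h
    apply h20
    linear_combination h
  rw [nu_twin]
  refine Eq.trans ?_ (Finset.card_pair hne)
  refine Finset.card_bij (fun m _ => ((m : ℕ) : ZMod (p : ℕ))) ?_ ?_ ?_
  · intro m hm
    rw [Finset.mem_filter] at hm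
    rw [Finset.mem_insert, Finset.mem_singleton]
    rcases hm.2 with h | h
    · exact Or.inl h
    · right
      linear_combination h
  · intro m hm l hl hml
    rw [Finset.mem_filter, Finset.mem_range] at hm hl
    rw [ZMod.natCast_eq_natCast_iff] at hml
    have h3 : m % (p : ℕ) = l % (p : ℕ) := hml
    rwa [Nat.mod_eq_of_lt hm.1, Nat.mod_eq_of_lt hl.1] at h3
  · intro x hx
    rw [Finset.mem_insert, Finset.mem_singleton] at hx
    have : NeZero (p : ℕ) := ⟨p.2.ne_zero⟩
    refine ⟨x.val, ?_, ?_⟩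
    · rw [Finset.mem_filter, Finset.mem_range]
      refine ⟨ZMod.val_lt x, ?_⟩
      rw [ZMod.natCast_val, ZMod.cast_id', id]
      rcases hx with h | h
      · exact Or.inl h
      · right
        rw [h]
        ring
    · rw [ZMod.natCast_val, ZMod.cast_id', id]

theorem series_twin (a : (p : Nat.Primes) → ZMod (p : ℕ)) (z : ℕ) (hz : 2 ≤ z) :
    series twin a z = twinProduct z := by
  classical
  have hconv : ∏ p ∈ (Finset.Icc 3 z).filter Nat.Prime, (1 - 1 / ((p : ℝ) - 1) ^ 2) =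
      ∏ p ∈ primes 3 z, (1 - 1 / (((p : ℕ) : ℝ) - 1) ^ 2) :=
    (Finset.prod_subtype_eq_prod_filter (s := Finset.Icc 3 z) (fun p : ℕ => (1 - 1 / ((p : ℝ) - 1) ^ 2))).symm
  unfold series twinProduct
  rw [hconv]
  have hmem : ∀ (m : ℕ) (p : Nat.Primes), p ∈ primes m z ↔ m ≤ (p : ℕ) ∧ (p : ℕ) ≤ z := by
    intro m p
    have h : p ∈ primes m z ↔ (p : ℕ) ∈ Finset.Icc m z := Finset.mem_subtype
    rw [h, Finset.mem_Icc]
  set q2 : Nat.Primes := ⟨2, Nat.prime_two⟩ with hq2
  have hins : primes 1 z = insert q2 (primes 3 z) := by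
    ext p
    rw [Finset.mem_insert, hmem, hmem]
    have h2 : 2 ≤ (p : ℕ) := p.2.two_le
    constructor
    · rintro ⟨-, h3⟩
      rcases h2.eq_or_lt with h4 | h4
      · exact Or.inl (Subtype.ext h4.symm)
      · exact Or.inr ⟨h4, h3⟩
    · rintro (rfl | h3)
      · exact ⟨by norm_num, hz⟩
      · exact ⟨by omega, h3.2⟩
  have hnot : q2 ∉ primes 3 z := by
    rw [hmem]
    intro h
    have : (3 : ℕ) ≤ 2 := h.1
    omega
  rw [hins, Finset.prod_insert hnot]
  have e2 : (1 - (nu twin a q2 : ℝ) / ((q2 : ℕ) : ℝ)) / (1 - 1 / ((q2 : ℕ) : ℝ)) ^ 2 = 2 := by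
    rw [nu_twin_two a q2 rfl]
    have : ((q2 : ℕ) : ℝ) = 2 := by
      rw [hq2]
      norm_num
    rw [this]
    norm_num
  rw [e2]
  congr 1
  refine Finset.prod_congr rfl fun p hp => ?_
  have hp' := (hmem 3 p).mp hp
  have hp3 : (3 : ℝ) ≤ ((p : ℕ) : ℝ) := by exact_mod_cast hp'.1
  rw [nu_twin_odd a p hp'.1]
  have h1 : ((p : ℕ) : ℝ) ≠ 0 := by linarith
  have h2 : ((p : ℕ) : ℝ) - 1 ≠ 0 := by linarith
  have h4 : 1 - 1 / ((p : ℕ) : ℝ) = (((p : ℕ) : ℝ) - 1) / ((p : ℕ) : ℝ) := by field_simp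
  rw [h4]
  push_cast
  field_simp
  ring

theorem twin_free (a : (p : Nat.Primes) → ZMod (p : ℕ)) : Free a twin := by
  intro p
  rw [← nu_lt_iff]
  rcases p.2.two_le.eq_or_lt with h | h
  · rw [nu_twin_two a p h.symm]
    omega
  · rw [nu_twin_odd a p h]
    exact h

theorem twinPairs : ∃ S : ℝ, 0 < S ∧ Tendsto twinProduct atTop (𝓝 S) ∧ ∀ᵐ a ∂law, ∀ M U : ℕ,
    ∀ᶠ x : ℕ in atTop, ∀ H : ℕ, H ≤ x → Real.log x ≤ Real.log H ^ M →
      |(twins a x H : ℝ) - S * ∑ r ∈ Finset.Ioc x (x + H), 1 / (Real.log r * Real.log (r + 2))| ≤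
        H / Real.log x ^ U := by
  have hprob : (ae Pool.Agent.W2helper64.RS.law).NeBot := inferInstance
  have hex : ∃ a, _ := Filter.Eventually.exists (f := ae Pool.Agent.W2helper64.RS.law) batemanHorn
  obtain ⟨a0, ha0⟩ := hex
  obtain ⟨S, -, h2, h3, -⟩ := ha0 2 twin twin_inj twin_deg
  have hcongr : ∀ a : (p : Nat.Primes) → ZMod (p : ℕ), series twin a =ᶠ[atTop] twinProduct := by
    intro a
    filter_upwards [eventually_ge_atTop 2] with z hz
    exact series_twin a z hz
  have hS : Tendsto twinProduct atTop (𝓝 S) := h2.congr' (hcongr a0)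
  refine ⟨S, h3.mpr (twin_free a0), hS, ?_⟩
  filter_upwards [batemanHorn] with a ha M U
  obtain ⟨S', -, k2, -, k4⟩ := ha 2 twin twin_inj twin_deg
  have hSS : S' = S := tendsto_nhds_unique (k2.congr' (hcongr a)) hS
  rw [hSS] at k4
  filter_upwards [k4 M U] with x hx H hH1 hH2
  have e1 : count twin a x H = twins a x H := by
    unfold count twins
    congr 1
    ext n
    rw [Pool.Agent.W2helper64.RK.mf', Pool.Agent.W2helper64.RK.mf']
    refine and_congr_right fun _ => ?_
    rw [Fin.forall_fin_two, twin_eval, twin_eval]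
    constructor
    · rintro ⟨⟨r, hr, hre⟩, ⟨s, hs, hse⟩⟩
      have e3 : r = n := by
        have : (r : ℤ) = n := by rw [hre]; simp
        exact_mod_cast this
      have e4 : s = n + 2 := by
        have : (s : ℤ) = n + 2 := by rw [hse]; simp
        exact_mod_cast this
      rw [← e3]
      refine ⟨hr, ?_⟩
      rw [e3, ← e4]
      exact hs
    · rintro ⟨h5, h6⟩
      refine ⟨⟨n, h5, by simp⟩, ⟨n + 2, h6, by push_cast; simp⟩⟩
  have e2 : mainTerm twin x H = ∑ r ∈ Finset.Ioc x (x + H), 1 / (Real.log r * Real.log (r + 2)) := by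
    unfold mainTerm
    refine Finset.sum_congr rfl fun r _ => ?_
    rw [Fin.prod_univ_two, twin_eval, twin_eval, one_div_mul_one_div]
    push_cast
    simp
  have := hx H hH1 hH2
  rwa [e1, e2] at this

/-- * There is a constant `C` such that almost surely for every large `n` there is an `r` with
`n < r ≤ n + (log n) ^ C` and `r, r + 2 ∈ R`.
* For every `k` there is a constant `C` such that almost surely for every admissible set `H` with at
most `k` elements and every large `x` there is an `n` with `x < n ≤ x + (log x) ^ C` and `n + h ∈ R`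
for all `h ∈ H`.
* For every `k` there is a constant `C` such that almost surely for every finite system `f` of
nonconstant integer polynomials with positive leading coefficients and sum of the degrees at most `k`
which has no local obstruction, and every large `x`, there is an `n` with `x < n ≤ x + (log x) ^ C` and
`f i n ∈ R` for all `i`.
* The product `2 ∏_(2 < p ≤ z) (1 - 1 / (p - 1) ^ 2)` converges to some `S > 0`, and almost surely, for all `M`,
`U`, all large `x` and all `H ≤ x` with `log x ≤ (log H) ^ M` (that is `H ≥ exp ((log x) ^ (1 / M))`), the number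
of the `r` with `x < r ≤ x + H` and `r, r + 2 ∈ R` differs from `S ∑_(x < r ≤ x + H) 1 / (log r log (r + 2))` by
at most `H / (log x) ^ U`.
* Almost surely, for all finite systems `f` of distinct nonconstant integer polynomials with positive leading
coefficients, the products `∏_(p ≤ z) (1 - ν_p / p) / (1 - 1 / p) ^ g` converge to some `S ≥ 0`, which is
positive if and only if `f` has no local obstruction, and for all `M`, `U`, all large `x` and all `H ≤ x` with
`log x ≤ (log H) ^ M` the number of the `n` with `x < n ≤ x + H` and `f i n ∈ R` for all `i` differs from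
`S ∑_(x < n ≤ x + H) ∏_i 1 / log (f i n)` by at most `H / (log x) ^ U`. -/
theorem result :
    (∃ C : ℝ, ∀ᵐ a ∂law, ∀ᶠ n : ℕ in atTop, ∃ r : ℕ, n < r ∧ (r : ℝ) ≤ n + Real.log n ^ C ∧
      r ∈ R a ∧ r + 2 ∈ R a) ∧
    (∀ k : ℕ, ∃ C : ℝ, ∀ᵐ a ∂law, ∀ H : Finset ℕ, H.card ≤ k → Admissible H →
      ∀ᶠ x : ℕ in atTop, ∃ n : ℕ, x < n ∧ (n : ℝ) ≤ x + Real.log x ^ C ∧ ∀ h ∈ H, n + h ∈ R a) ∧
    (∀ k : ℕ, ∃ C : ℝ, ∀ᵐ a ∂law, ∀ (g : ℕ) (f : Fin g → ℤ[X]),
      (∀ i, 0 < (f i).natDegree ∧ 0 < (f i).leadingCoeff) → ∑ i, (f i).natDegree ≤ k → Free a f →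
        ∀ᶠ x : ℕ in atTop, ∃ n : ℕ, x < n ∧ (n : ℝ) ≤ x + Real.log x ^ C ∧
          ∀ i, ∃ r ∈ R a, (r : ℤ) = (f i).eval (n : ℤ)) ∧
    (∃ S : ℝ, 0 < S ∧ Tendsto twinProduct atTop (𝓝 S) ∧ ∀ᵐ a ∂law, ∀ M U : ℕ,
      ∀ᶠ x : ℕ in atTop, ∀ H : ℕ, H ≤ x → Real.log x ≤ Real.log H ^ M →
        |(twins a x H : ℝ) - S * ∑ r ∈ Finset.Ioc x (x + H), 1 / (Real.log r * Real.log (r + 2))| ≤
          H / Real.log x ^ U) ∧
    (∀ᵐ a ∂law, ∀ (g : ℕ) (f : Fin g → ℤ[X]), Function.Injective f →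
      (∀ i, 0 < (f i).natDegree ∧ 0 < (f i).leadingCoeff) →
        ∃ S : ℝ, 0 ≤ S ∧ Tendsto (series f a) atTop (𝓝 S) ∧ (0 < S ↔ Free a f) ∧
          ∀ M U : ℕ, ∀ᶠ x : ℕ in atTop, ∀ H : ℕ, H ≤ x → Real.log x ≤ Real.log H ^ M →
            |(count f a x H : ℝ) - S * mainTerm f x H| ≤ H / Real.log x ^ U) := by
  refine ⟨?_, patterns, polys, twinPairs, batemanHorn⟩
  obtain ⟨C, hC⟩ := patterns 2
  refine ⟨C, ?_⟩
  filter_upwards [hC] with a ha
  have h1 := ha {0, 2} (by decide) (by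
    intro p hp
    by_cases h2 : p = 2
    · subst h2
      refine ⟨1, fun h hh => ?_⟩
      rw [Finset.mem_insert, Finset.mem_singleton] at hh
      rcases hh with rfl | rfl <;> decide
    · refine ⟨1, fun h hh heq => ?_⟩
      rw [Finset.mem_insert, Finset.mem_singleton] at hh
      have hp1 := hp.one_lt
      rcases hh with rfl | rfl
      · have := (Nat.modEq_iff_dvd' (by norm_num : 0 ≤ 1)).mp heq
        have := Nat.le_of_dvd (by norm_num) this
        omega
      · have := (Nat.modEq_iff_dvd' (by norm_num : 1 ≤ 2)).mp heq.symm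
        have := Nat.le_of_dvd (by norm_num) this
        omega)
  filter_upwards [h1] with n hn
  obtain ⟨r, h2, h3, h4⟩ := hn
  exact ⟨r, h2, h3, h4 0 (by simp), h4 2 (by simp)⟩

end Pool.Agent.Results.MP_b51559_nt.RandomSieveShortIntervals
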